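import Mathlib

set_option linter.style.longLine false

/-! Row DIM: uniformly porous bounded sets of the plane have dimension less than two. -/

namespace Pool.Agent.H17.MB.Dm

open Finset Metric MeasureTheory Filter
open scoped ENNReal NNReal Topology

/-- index of the square of side `N ^ (-k)` which contains `z` -/
noncomputable def g (N k : ℕ) (z : ℂ) : ℤ × ℤ := (⌊(N : ℝ) ^ k * z.re⌋, ⌊(N : ℝ) ^ k * z.im⌋)

theorem g_parent {N : ℕ} (hN : 0 < N) (k : ℕ) (z : ℂ) :
    g N k z = ((g N (k + 1) z).1 / (N : ℤ), (g N (k + 1) z).2 / (N : ℤ)) := by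
  have h0 : (N : ℝ) ≠ 0 := by positivity
  have h : ∀ x : ℝ, (N : ℝ) ^ k * x = (N : ℝ) ^ (k + 1) * x / (N : ℕ) := by
    intro x
    field_simp
    ring
  unfold g
  simp only
  rw [h z.re, h z.im, Int.floor_div_natCast, Int.floor_div_natCast]

/-- the children of the square with index `0` -/
noncomputable def S (N : ℕ) : Finset (ℤ × ℤ) := Finset.Ico (0 : ℤ) N ×ˢ Finset.Ico (0 : ℤ) N

theorem card_S (N : ℕ) : (S N).card = N * N := by
  simp [S]

theorem child {N : ℕ} (hN : 0 < N) (k : ℕ) (z : ℂ) : ∃ a ∈ S N,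
    g N (k + 1) z = ((N : ℤ) * (g N k z).1 + a.1, (N : ℤ) * (g N k z).2 + a.2) := by
  have h0 : (0 : ℤ) < N := by exact_mod_cast hN
  refine ⟨((g N (k + 1) z).1 % (N : ℤ), (g N (k + 1) z).2 % (N : ℤ)), ?_, ?_⟩
  · simp only [S, Finset.mem_product, Finset.mem_Ico]
    exact ⟨⟨Int.emod_nonneg _ h0.ne', Int.emod_lt_of_pos _ h0⟩,
      ⟨Int.emod_nonneg _ h0.ne', Int.emod_lt_of_pos _ h0⟩⟩
  · rw [g_parent hN k z]
    simp only
    rw [Int.mul_ediv_add_emod, Int.mul_ediv_add_emod]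

theorem dist_of_g {N : ℕ} (hN : 0 < N) (k : ℕ) {z w : ℂ} (h : g N k z = g N k w) :
    dist z w ≤ 2 / (N : ℝ) ^ k := by
  have h0 : (0 : ℝ) < (N : ℝ) ^ k := by positivity
  unfold g at h
  rw [Prod.mk.injEq] at h
  obtain ⟨h1, h2⟩ := h
  have key : ∀ x y : ℝ, ⌊(N : ℝ) ^ k * x⌋ = ⌊(N : ℝ) ^ k * y⌋ → |x - y| ≤ 1 / (N : ℝ) ^ k := by
    intro x y hxy
    have h3 := Int.floor_le ((N : ℝ) ^ k * x)
    have h4 := Int.lt_floor_add_one ((N : ℝ) ^ k * x)
    have h5 := Int.floor_le ((N : ℝ) ^ k * y)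
    have h6 := Int.lt_floor_add_one ((N : ℝ) ^ k * y)
    rw [← hxy] at h5 h6
    rw [le_div_iff₀ h0, ← abs_of_pos h0, ← abs_mul, abs_le]
    constructor
    · nlinarith
    · nlinarith
  have h3 := key _ _ h1
  have h4 := key _ _ h2
  have h5 : dist z w ≤ |z.re - w.re| + |z.im - w.im| := by
    rw [dist_eq_norm]
    have := Complex.norm_le_abs_re_add_abs_im (z - w)
    simpa using this
  calc dist z w ≤ 1 / (N : ℝ) ^ k + 1 / (N : ℝ) ^ k := by linarith
    _ = 2 / (N : ℝ) ^ k := by ring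

/-- the squares of level `k` which meet `E` -/
def F (N : ℕ) (E : Set ℂ) (k : ℕ) : Set (ℤ × ℤ) := g N k '' E

theorem F_finite {N : ℕ} {E : Set ℂ} (hE : Bornology.IsBounded E) (k : ℕ) : (F N E k).Finite := by
  obtain ⟨R, hR⟩ := hE.exists_norm_le
  have h0 : (0 : ℝ) ≤ (N : ℝ) ^ k := by positivity
  refine ((Set.finite_Icc (⌊-((N : ℝ) ^ k * R)⌋) (⌊(N : ℝ) ^ k * R⌋)).prod
    (Set.finite_Icc (⌊-((N : ℝ) ^ k * R)⌋) (⌊(N : ℝ) ^ k * R⌋))).subset ?_
  rintro _ ⟨z, hz, rfl⟩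
  have h1 := hR z hz
  have h2 := (Complex.abs_re_le_norm z).trans h1
  have h3 := (Complex.abs_im_le_norm z).trans h1
  rw [abs_le] at h2 h3
  refine ⟨⟨Int.floor_mono ?_, Int.floor_mono ?_⟩, ⟨Int.floor_mono ?_, Int.floor_mono ?_⟩⟩
  · nlinarith [h2.1]
  · nlinarith [h2.2]
  · nlinarith [h3.1]
  · nlinarith [h3.2]

/-- every square which meets a porous set has a child which misses it -/
theorem hole {η : ℝ} (hη : 0 < η) {E : Set ℂ}
    (hE : ∀ x ∈ E, ∀ r ∈ Set.Ioc (0 : ℝ) 1, ∃ y : ℂ, closedBall y (η * r) ⊆ closedBall x r ∧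
      Disjoint (closedBall y (η * r)) E) {N M : ℕ} (hNM : N = 2 * M) (hM : 2 ≤ M) (hN : 8 / η ≤ N)
    (k : ℕ) (p : ℤ × ℤ) : ∃ a ∈ S N, ∀ z ∈ E, g N (k + 1) z ≠ ((N : ℤ) * p.1 + a.1, (N : ℤ) * p.2 + a.2) := by
  have hN0 : 0 < N := by omega
  have hNr : (0 : ℝ) < N := by exact_mod_cast hN0
  have hk : (0 : ℝ) < (N : ℝ) ^ k := by positivity
  by_cases hc : ∀ z ∈ E, g N (k + 1) z ≠ ((N : ℤ) * p.1 + (M : ℤ), (N : ℤ) * p.2 + (M : ℤ))
  · refine ⟨((M : ℤ), (M : ℤ)), ?_, hc⟩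
    simp only [S, Finset.mem_product, Finset.mem_Ico]
    refine ⟨⟨?_, ?_⟩, ⟨?_, ?_⟩⟩ <;> omega
  · push Not at hc
    obtain ⟨z, hz, hgz⟩ := hc
    have hN1 : (1 : ℝ) ≤ (N : ℝ) ^ k := one_le_pow₀ (by exact_mod_cast hN0)
    obtain ⟨y, hy1, hy2⟩ := hE z hz (1 / (4 * (N : ℝ) ^ k)) ⟨by positivity, by
      rw [div_le_one (by positivity)]
      linarith⟩
    set r : ℝ := 1 / (4 * (N : ℝ) ^ k) with hr
    have hr0 : 0 < r := by positivity
    have hyz : ‖y - z‖ ≤ r := by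
      have := hy1 (mem_closedBall_self (by positivity))
      rwa [mem_closedBall, dist_eq_norm] at this
    have hMr : (N : ℝ) = 2 * (M : ℝ) := by
      rw [hNM]
      push_cast
      ring
    have hM2 : (2 : ℝ) ≤ M := by exact_mod_cast hM
    have hrN : (N : ℝ) ^ (k + 1) * r = N / 4 := by
      rw [hr, pow_succ]
      field_simp
    have key : ∀ (s t : ℝ) (q : ℤ), |t - s| ≤ r → ⌊(N : ℝ) ^ (k + 1) * s⌋ = (N : ℤ) * q + (M : ℤ) →
        0 ≤ ⌊(N : ℝ) ^ (k + 1) * t⌋ - (N : ℤ) * q ∧ ⌊(N : ℝ) ^ (k + 1) * t⌋ - (N : ℤ) * q < N := by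
      intro s t q hst hs
      have h1 := Int.floor_le ((N : ℝ) ^ (k + 1) * s)
      have h2 := Int.lt_floor_add_one ((N : ℝ) ^ (k + 1) * s)
      rw [hs] at h1 h2
      push_cast at h1 h2
      have hk1 : (0 : ℝ) < (N : ℝ) ^ (k + 1) := by positivity
      rw [abs_le] at hst
      have h3 : (N : ℝ) ^ (k + 1) * (t - s) ≤ N / 4 := by
        rw [← hrN]
        exact mul_le_mul_of_nonneg_left hst.2 hk1.le
      have h4 : -((N : ℝ) / 4) ≤ (N : ℝ) ^ (k + 1) * (t - s) := by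
        rw [← hrN, ← mul_neg]
        exact mul_le_mul_of_nonneg_left hst.1 hk1.le
      rw [mul_sub] at h3 h4
      constructor
      · rw [sub_nonneg, Int.le_floor]
        push_cast
        linarith
      · have h5 : ⌊(N : ℝ) ^ (k + 1) * t⌋ < (N : ℤ) * q + N := by
          rw [Int.floor_lt]
          push_cast
          linarith
        linarith
    have hg1 : ⌊(N : ℝ) ^ (k + 1) * z.re⌋ = (N : ℤ) * p.1 + (M : ℤ) := congrArg Prod.fst hgz
    have hg2 : ⌊(N : ℝ) ^ (k + 1) * z.im⌋ = (N : ℤ) * p.2 + (M : ℤ) := congrArg Prod.snd hgz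
    have e1 : |y.re - z.re| ≤ r := by
      have := Complex.abs_re_le_norm (y - z)
      rw [Complex.sub_re] at this
      linarith
    have e2 : |y.im - z.im| ≤ r := by
      have := Complex.abs_im_le_norm (y - z)
      rw [Complex.sub_im] at this
      linarith
    have k1 := key _ _ _ e1 hg1
    have k2 := key _ _ _ e2 hg2
    refine ⟨(⌊(N : ℝ) ^ (k + 1) * y.re⌋ - (N : ℤ) * p.1, ⌊(N : ℝ) ^ (k + 1) * y.im⌋ - (N : ℤ) * p.2), ?_, ?_⟩
    · simp only [S, Finset.mem_product, Finset.mem_Ico]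
      exact ⟨k1, k2⟩
    · intro w hw hgw
      have h1 : g N (k + 1) w = g N (k + 1) y := by
        rw [hgw]
        unfold g
        simp
      have h2 := dist_of_g hN0 (k + 1) h1
      have h3 : (2 : ℝ) / (N : ℝ) ^ (k + 1) ≤ η * r := by
        rw [hr, pow_succ, mul_one_div, div_le_div_iff₀ (by positivity) (by positivity)]
        rw [div_le_iff₀ hη] at hN
        nlinarith
      exact Set.disjoint_left.mp hy2 (mem_closedBall.mpr (h2.trans h3)) hw

theorem card_step {N : ℕ} (hN : 0 < N) {E : Set ℂ} (hb : Bornology.IsBounded E)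
    (hh : ∀ (k : ℕ) (p : ℤ × ℤ), ∃ a ∈ S N, ∀ z ∈ E, g N (k + 1) z ≠ ((N : ℤ) * p.1 + a.1, (N : ℤ) * p.2 + a.2))
    (k : ℕ) : (F_finite (N := N) hb (k + 1)).toFinset.card ≤
      (F_finite (N := N) hb k).toFinset.card * (N * N - 1) := by
  classical
  choose a ha1 ha2 using hh
  have h1 : (F_finite (N := N) hb (k + 1)).toFinset ⊆
      (F_finite (N := N) hb k).toFinset.biUnion (fun p => ((S N).erase (a k p)).image
        (fun q => ((N : ℤ) * p.1 + q.1, (N : ℤ) * p.2 + q.2))) := by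
    intro p hp
    rw [Set.Finite.mem_toFinset] at hp
    obtain ⟨z, hz, rfl⟩ := hp
    obtain ⟨b, hb1, hb2⟩ := child hN k z
    rw [Finset.mem_biUnion]
    refine ⟨g N k z, ?_, ?_⟩
    · rw [Set.Finite.mem_toFinset]
      exact ⟨z, hz, rfl⟩
    · rw [Finset.mem_image]
      refine ⟨b, ?_, hb2.symm⟩
      rw [Finset.mem_erase]
      refine ⟨?_, hb1⟩
      rintro rfl
      exact ha2 k _ z hz hb2
  refine (Finset.card_le_card h1).trans (Finset.card_biUnion_le_card_mul _ _ _ ?_)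
  intro p _
  refine Finset.card_image_le.trans ?_
  rw [Finset.card_erase_of_mem (ha1 k p), card_S]

theorem card_le {N : ℕ} (hN : 0 < N) {E : Set ℂ} (hb : Bornology.IsBounded E)
    (hh : ∀ (k : ℕ) (p : ℤ × ℤ), ∃ a ∈ S N, ∀ z ∈ E, g N (k + 1) z ≠ ((N : ℤ) * p.1 + a.1, (N : ℤ) * p.2 + a.2))
    (k : ℕ) : (F_finite (N := N) hb k).toFinset.card ≤
      (F_finite (N := N) hb 0).toFinset.card * (N * N - 1) ^ k := by
  induction k with
  | zero => simp
  | succ k ih =>
    refine (card_step hN hb hh k).trans ?_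
    rw [pow_succ, ← mul_assoc]
    exact Nat.mul_le_mul_right _ ih

theorem porous_dim : ∀ η : ℝ, 0 < η → ∃ δ : ℝ, 0 < δ ∧ ∀ E : Set ℂ, Bornology.IsBounded E →
  (∀ x ∈ E, ∀ r ∈ Set.Ioc (0 : ℝ) 1, ∃ y : ℂ, closedBall y (η * r) ⊆ closedBall x r ∧
    Disjoint (closedBall y (η * r)) E) → dimH E ≤ ENNReal.ofReal (2 - δ) := by
  intro η hη
  obtain ⟨M0, hM0⟩ := exists_nat_ge (8 / η)
  set M : ℕ := M0 + 2 with hM
  set N : ℕ := 2 * M with hN
  have hM2 : 2 ≤ M := by omega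
  have hN0 : 0 < N := by omega
  have hN4 : 4 ≤ N := by omega
  have hNr : (4 : ℝ) ≤ N := by exact_mod_cast hN4
  have h8 : 8 / η ≤ N := by
    refine hM0.trans ?_
    exact_mod_cast (by omega : M0 ≤ N)
  set D : ℝ := (N : ℝ) * N - 1 with hD
  have hD1 : 1 < D := by nlinarith
  have hlog : 0 < Real.log N := Real.log_pos (by linarith)
  set d : ℝ := Real.log D / Real.log N with hd
  have hd0 : 0 ≤ d := div_nonneg (Real.log_nonneg hD1.le) hlog.le
  have hd2 : d < 2 := by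
    rw [hd, div_lt_iff₀ hlog]
    have h1 : Real.log D < Real.log ((N : ℝ) * N) := Real.log_lt_log (by linarith) (by linarith)
    rw [Real.log_mul (by linarith) (by linarith)] at h1
    linarith
  have hNd : (N : ℝ) ^ d = D := by
    rw [Real.rpow_def_of_pos (by linarith), hd, mul_div_cancel₀ _ hlog.ne', Real.exp_log (by linarith)]
  refine ⟨2 - d, by linarith, ?_⟩
  intro E hb hE
  rw [sub_sub_cancel]
  have hh := fun k p => hole hη hE hN hM2 h8 k p
  have hcard := card_le hN0 hb hh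
  set C : ℕ := (F_finite (N := N) hb 0).toFinset.card with hC
  have hpw : ∀ k : ℕ, (0 : ℝ) < 2 / (N : ℝ) ^ k := fun k => by positivity
  have key : μH[d] E ≤ ENNReal.ofReal (C * 2 ^ d) := by
    refine (Measure.hausdorffMeasure_le_liminf_sum (β := ℕ) (ι := fun k => (F_finite (N := N) hb k).toFinset)
      d E (l := atTop) (fun k => ENNReal.ofReal (2 / (N : ℝ) ^ k)) ?_
      (fun k p => {z | g N k z = (p : ℤ × ℤ)}) ?_ ?_).trans ?_
    · have h1 : Tendsto (fun k : ℕ => 2 / (N : ℝ) ^ k) atTop (𝓝 0) := by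
        have h2 : Tendsto (fun k : ℕ => 2 * ((N : ℝ)⁻¹) ^ k) atTop (𝓝 (2 * 0)) := by
          refine Tendsto.const_mul 2 (tendsto_pow_atTop_nhds_zero_of_lt_one (by positivity) ?_)
          exact inv_lt_one_of_one_lt₀ (by linarith)
        rw [mul_zero] at h2
        refine h2.congr (fun k => ?_)
        rw [inv_pow, div_eq_mul_inv]
      have h3 := ENNReal.tendsto_ofReal h1
      rwa [ENNReal.ofReal_zero] at h3
    · refine Filter.Eventually.of_forall (fun k p => ?_)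
      refine Metric.ediam_le (fun z hz w hw => ?_)
      rw [edist_dist]
      refine ENNReal.ofReal_le_ofReal (dist_of_g hN0 k ?_)
      rw [Set.mem_ofPred_eq] at hz hw
      rw [hz, hw]
    · refine Filter.Eventually.of_forall (fun k z hz => ?_)
      rw [Set.mem_iUnion]
      exact ⟨⟨g N k z, by
        rw [Set.Finite.mem_toFinset]
        exact ⟨z, hz, rfl⟩⟩, rfl⟩
    · have hbound : ∀ k : ℕ, ∑ p : (F_finite (N := N) hb k).toFinset,
          Metric.ediam {z : ℂ | g N k z = (p : ℤ × ℤ)} ^ d ≤ ENNReal.ofReal (C * 2 ^ d) := by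
        intro k
        have h1 : ∀ p : (F_finite (N := N) hb k).toFinset,
            Metric.ediam {z : ℂ | g N k z = (p : ℤ × ℤ)} ^ d ≤ ENNReal.ofReal ((2 / (N : ℝ) ^ k) ^ d) := by
          intro p
          rw [← ENNReal.ofReal_rpow_of_nonneg (hpw k).le hd0]
          refine ENNReal.rpow_le_rpow ?_ hd0
          refine Metric.ediam_le (fun z hz w hw => ?_)
          rw [edist_dist]
          refine ENNReal.ofReal_le_ofReal (dist_of_g hN0 k ?_)
          rw [Set.mem_ofPred_eq] at hz hw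
          rw [hz, hw]
        refine (Finset.sum_le_sum (fun p _ => h1 p)).trans ?_
        rw [Finset.sum_const, Finset.card_univ, Fintype.card_coe, nsmul_eq_mul,
          ← ENNReal.ofReal_natCast, ← ENNReal.ofReal_mul (by positivity)]
        refine ENNReal.ofReal_le_ofReal ?_
        have h2 : ((F_finite (N := N) hb k).toFinset.card : ℝ) ≤ C * D ^ k := by
          have h3 : (((F_finite (N := N) hb k).toFinset.card : ℕ) : ℝ) ≤ ((C * (N * N - 1) ^ k : ℕ) : ℝ) := by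
            exact_mod_cast hcard k
          refine h3.trans (le_of_eq ?_)
          have h4 : ((N * N - 1 : ℕ) : ℝ) = D := by
            rw [Nat.cast_sub (by nlinarith), Nat.cast_mul, Nat.cast_one]
          rw [Nat.cast_mul, Nat.cast_pow, h4]
        have h5 : (2 / (N : ℝ) ^ k) ^ d = 2 ^ d / D ^ k := by
          rw [Real.div_rpow (by norm_num) (by positivity), ← Real.rpow_natCast, ← Real.rpow_mul (by positivity),
            mul_comm (k : ℝ) d, Real.rpow_mul (by positivity), hNd, Real.rpow_natCast]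
        rw [h5]
        have hDk : (0 : ℝ) < D ^ k := pow_pos (by linarith) k
        calc ((F_finite (N := N) hb k).toFinset.card : ℝ) * (2 ^ d / D ^ k)
            ≤ (C * D ^ k) * (2 ^ d / D ^ k) := by gcongr
          _ = C * 2 ^ d := by field_simp
      refine (Filter.liminf_le_liminf (Filter.Eventually.of_forall hbound)).trans ?_
      rw [Filter.liminf_const]
  have hne : μH[((⟨d, hd0⟩ : ℝ≥0) : ℝ)] E ≠ ∞ := (key.trans_lt ENNReal.ofReal_lt_top).ne
  have h9 := dimH_le_of_hausdorffMeasure_ne_top hne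
  refine h9.trans (le_of_eq ?_)
  rw [ENNReal.ofReal, Real.toNNReal_of_nonneg hd0]
  rfl

end Pool.Agent.H17.MB.Dm
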