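import Pool.Agent.H47.MC.Dim
import Pool.Agent.H17.MB.DimCore

namespace Pool.Agent.H17.MB

/-- row DIM: uniformly porous bounded sets have dimension less than two -/
theorem rowDim : Pool.Agent.H47.MC.StatDim := Pool.Agent.H17.MB.Dm.porous_dim

end Pool.Agent.H17.MB
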