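import Pool.Agent.H47.MB.RowS1

set_option linter.style.longLine false

/-! MB2, row Q: the abstract real statement. -/

namespace Pool.Agent.H17.MB

open Pool.Agent.H47.MB

/-- truncation to `[-5, 5]` -/
noncomputable def clamp (w : ℝ) : ℝ := max (-5) (min 5 w)

theorem clamp_mem (w : ℝ) : clamp w ∈ Set.Icc (-5 : ℝ) 5 :=
  ⟨le_max_left _ _, max_le (by norm_num) (min_le_left _ _)⟩

theorem clamp_eq {w : ℝ} (h1 : -5 ≤ w) (h2 : w ≤ 5) : clamp w = w := by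
  unfold clamp
  rw [min_eq_right h2, max_eq_right h1]

theorem continuous_clamp : Continuous clamp :=
  continuous_const.max (continuous_const.min continuous_id)

theorem clamp_gt {a w : ℝ} (ha : a < 5) (h : a < w) : a < clamp w := by
  unfold clamp
  exact lt_max_of_lt_right (lt_min ha h)

theorem clamp_le {w : ℝ} (h : 0 < w) : clamp w ≤ w := by
  unfold clamp
  exact max_le (by linarith) (min_le_right _ _)

/-- the truncated orbit -/
noncomputable def X (g : ℝ → ℝ → ℝ) (t : ℝ) : ℕ → ℝ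
  | 0 => 0
  | j + 1 => g t (clamp (X g t j))

/-- the hypothesis of row Q -/
def Hyp (g : ℝ → ℝ → ℝ) : Prop :=
  ∀ t ∈ Set.Icc (-3 : ℝ) 3, ∀ w ∈ Set.Icc (-5 : ℝ) 5, |g t w - (t + w ^ 2)| ≤ 0.005 * (|t| + w ^ 2)

theorem bounds {g : ℝ → ℝ → ℝ} (hg : Hyp g) {t : ℝ} (ht : t ∈ Set.Icc (-2.2 : ℝ) (-1.65)) {w : ℝ}
    (hw : w ∈ Set.Icc (-5 : ℝ) 5) :
    1.005 * t + 0.995 * w ^ 2 ≤ g t w ∧ g t w ≤ 0.995 * t + 1.005 * w ^ 2 := by
  have h := hg t ⟨by linarith [ht.1], by linarith [ht.2]⟩ w hw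
  rw [abs_of_nonpos (by linarith [ht.2] : t ≤ 0), abs_le] at h
  constructor
  · linarith [h.1]
  · linarith [h.2]

theorem x1 {g : ℝ → ℝ → ℝ} (hg : Hyp g) {t : ℝ} (ht : t ∈ Set.Icc (-2.2 : ℝ) (-1.65)) :
    1.005 * t ≤ X g t 1 ∧ X g t 1 ≤ 0.995 * t := by
  have h0 : X g t 1 = g t 0 := by
    show g t (clamp (X g t 0)) = g t 0
    rw [show X g t 0 = 0 from rfl, clamp_eq (by norm_num) (by norm_num)]
  have h := bounds hg ht (w := 0) ⟨by norm_num, by norm_num⟩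
  rw [h0]
  constructor
  · linarith [h.1]
  · linarith [h.2]

theorem x2 {g : ℝ → ℝ → ℝ} (hg : Hyp g) {t : ℝ} (ht : t ∈ Set.Icc (-2.2 : ℝ) (-1.65)) :
    1.005 * t + 0.985 * t ^ 2 ≤ X g t 2 ∧ X g t 2 ≤ 0.995 * t + 1.0151 * t ^ 2 := by
  obtain ⟨h1, h2⟩ := x1 hg ht
  have hm : X g t 1 ∈ Set.Icc (-5 : ℝ) 5 := ⟨by linarith [ht.1], by linarith [ht.2]⟩
  have h0 : X g t 2 = g t (X g t 1) := by
    show g t (clamp (X g t 1)) = _
    rw [clamp_eq hm.1 hm.2]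
  obtain ⟨h3, h4⟩ := bounds hg ht hm
  rw [h0]
  have ht0 : t ≤ 0 := by linarith [ht.2]
  have e1 : (0.995 * t) ^ 2 ≤ X g t 1 ^ 2 := by nlinarith
  have e2 : X g t 1 ^ 2 ≤ (1.005 * t) ^ 2 := by nlinarith
  constructor
  · nlinarith [sq_nonneg t]
  · nlinarith [sq_nonneg t]

theorem x2_pos {g : ℝ → ℝ → ℝ} (hg : Hyp g) {t : ℝ} (ht : t ∈ Set.Icc (-2.2 : ℝ) (-1.65)) :
    0 < X g t 2 := by
  have h := (x2 hg ht).1
  nlinarith [ht.1, ht.2]

theorem persist {g : ℝ → ℝ → ℝ} (hg : Hyp g) {t : ℝ} (ht : t ∈ Set.Icc (-2.2 : ℝ) (-1.65)) {j : ℕ}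
    (hj : 2.3 < X g t j) : 2.3 < X g t (j + 1) := by
  have h1 : 2.3 < clamp (X g t j) := clamp_gt (by norm_num) hj
  have h2 := (bounds hg ht (clamp_mem (X g t j))).1
  show 2.3 < g t (clamp (X g t j))
  nlinarith [ht.1]

theorem persist' {g : ℝ → ℝ → ℝ} (hg : Hyp g) {t : ℝ} (ht : t ∈ Set.Icc (-2.2 : ℝ) (-1.65)) {j : ℕ}
    (hj : 2.3 < X g t j) (k : ℕ) : 2.3 < X g t (j + k) := by
  induction k with
  | zero => exact hj
  | succ k ih => exact persist hg ht ih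

theorem left {g : ℝ → ℝ → ℝ} (hg : Hyp g) (j : ℕ) (hj : 2 ≤ j) : 2.3 < X g (-2.2) j := by
  have ht : (-2.2 : ℝ) ∈ Set.Icc (-2.2 : ℝ) (-1.65) := ⟨le_rfl, by norm_num⟩
  obtain ⟨k, rfl⟩ := Nat.exists_eq_add_of_le hj
  refine persist' hg ht ?_ k
  have h := (x2 hg ht).1
  norm_num at h ⊢
  linarith

theorem right {g : ℝ → ℝ → ℝ} (hg : Hyp g) : X g (-1.65) 3 < 0 := by
  have ht : (-1.65 : ℝ) ∈ Set.Icc (-2.2 : ℝ) (-1.65) := ⟨by norm_num, le_rfl⟩
  have h := (x2 hg ht).2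
  have hp := x2_pos hg ht
  have h2 : X g (-1.65) 2 ≤ 1.13 := by
    norm_num at h ⊢
    linarith
  have h3 := (bounds hg ht (w := X g (-1.65) 2) ⟨by linarith, by linarith⟩).2
  have h0 : X g (-1.65) 3 = g (-1.65) (X g (-1.65) 2) := by
    show g (-1.65) (clamp (X g (-1.65) 2)) = _
    rw [clamp_eq (by linarith) (by linarith)]
  rw [h0]
  nlinarith

theorem next_neg {g : ℝ → ℝ → ℝ} (hg : Hyp g) {t : ℝ} (ht : t ∈ Set.Icc (-2.2 : ℝ) (-1.65)) {q : ℕ}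
    (hq : X g t q = 0) : X g t (q + 1) < 0 := by
  have h0 : X g t (q + 1) = X g t 1 := by
    show g t (clamp (X g t q)) = g t (clamp (X g t 0))
    rw [hq]
    rfl
  rw [h0]
  linarith [(x1 hg ht).2, ht.2]

theorem cont {g : ℝ → ℝ → ℝ}
    (hc : ContinuousOn (fun p : ℝ × ℝ => g p.1 p.2) (Set.Icc (-3) 3 ×ˢ Set.Icc (-5) 5)) (j : ℕ) :
    ContinuousOn (fun t => X g t j) (Set.Icc (-2.2 : ℝ) (-1.65)) := by
  induction j with
  | zero => exact continuousOn_const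
  | succ j ih =>
    have h1 : ContinuousOn (fun t => ((t, clamp (X g t j)) : ℝ × ℝ)) (Set.Icc (-2.2 : ℝ) (-1.65)) :=
      continuousOn_id.prodMk (continuous_clamp.comp_continuousOn ih)
    refine hc.comp h1 ?_
    intro t ht
    exact ⟨⟨by linarith [ht.1], by linarith [ht.2]⟩, clamp_mem _⟩

/-- the smallest zero -/
theorem least_zero {g : ℝ → ℝ → ℝ} (hg : Hyp g)
    (hc : ContinuousOn (fun p : ℝ × ℝ => g p.1 p.2) (Set.Icc (-3) 3 ×ˢ Set.Icc (-5) 5)) {q : ℕ}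
    (hq : 2 ≤ q) {u : ℝ} (hu : u ∈ Set.Icc (-2.2 : ℝ) (-1.65)) (hX : X g u q < 0) :
    ∃ t ∈ Set.Icc (-2.2 : ℝ) (-1.65), t < u ∧ X g t q = 0 ∧ ∀ s, -2.2 ≤ s → s < t → 0 < X g s q := by
  have hcu : ContinuousOn (fun t => X g t q) (Set.Icc (-2.2 : ℝ) u) :=
    (cont hc q).mono (Set.Icc_subset_Icc le_rfl hu.2)
  have hne : ({s | s ∈ Set.Icc (-2.2 : ℝ) u ∧ X g s q ≤ 0} : Set ℝ).Nonempty :=
    ⟨u, ⟨hu.1, le_rfl⟩, hX.le⟩
  have hcl : IsCompact ({s | s ∈ Set.Icc (-2.2 : ℝ) u ∧ X g s q ≤ 0} : Set ℝ) := by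
    have h := hcu.preimage_isClosed_of_isClosed isClosed_Icc (isClosed_Iic (a := (0 : ℝ)))
    exact isCompact_Icc.of_isClosed_subset h fun s hs => hs.1
  obtain ⟨t, ⟨ht1, ht2⟩, ht3⟩ := hcl.exists_isLeast hne
  have htI : t ∈ Set.Icc (-2.2 : ℝ) (-1.65) := ⟨ht1.1, ht1.2.trans hu.2⟩
  have hz : X g t q = 0 := by
    have hct : ContinuousOn (fun s => X g s q) (Set.Icc (-2.2 : ℝ) t) :=
      hcu.mono (Set.Icc_subset_Icc le_rfl ht1.2)
    have h0 : (0 : ℝ) ∈ Set.Icc (X g t q) (X g (-2.2) q) :=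
      ⟨ht2, by linarith [left hg q hq]⟩
    obtain ⟨s, hs, hs0⟩ := intermediate_value_Icc' ht1.1 hct h0
    have hst : t ≤ s := ht3 ⟨⟨hs.1, hs.2.trans ht1.2⟩, le_of_eq hs0⟩
    have : s = t := le_antisymm hs.2 hst
    rw [← this]
    exact hs0
  refine ⟨t, htI, lt_of_le_of_ne ht1.2 ?_, hz, ?_⟩
  · rintro rfl
    linarith
  · intro s hs1 hs2
    by_contra hcon
    exact absurd (ht3 ⟨⟨hs1, hs2.le.trans ht1.2⟩, not_lt.1 hcon⟩) (not_le.2 hs2)

theorem zeros {g : ℝ → ℝ → ℝ} (hg : Hyp g)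
    (hc : ContinuousOn (fun p : ℝ × ℝ => g p.1 p.2) (Set.Icc (-3) 3 ×ˢ Set.Icc (-5) 5)) (q : ℕ)
    (hq : 3 ≤ q) :
    ∃ t ∈ Set.Icc (-2.2 : ℝ) (-1.65), X g t q = 0 ∧
      (∀ s, -2.2 ≤ s → s < t → ∀ j, 2 ≤ j → j ≤ q → 0 < X g s j) ∧
      ∀ j, 2 ≤ j → j < q → 0 < X g t j := by
  induction q, hq using Nat.le_induction with
  | base =>
    have hI : (-1.65 : ℝ) ∈ Set.Icc (-2.2 : ℝ) (-1.65) := ⟨by norm_num, le_rfl⟩
    obtain ⟨t, ht, -, hz, hs⟩ := least_zero hg hc (by norm_num) hI (right hg)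
    refine ⟨t, ht, hz, ?_, ?_⟩
    · intro s hs1 hs2 j hj2 hj3
      rcases Nat.lt_or_ge j 3 with h | h
      · have : j = 2 := by omega
        subst this
        exact x2_pos hg ⟨hs1, hs2.le.trans ht.2⟩
      · have : j = 3 := by omega
        subst this
        exact hs s hs1 hs2
    · intro j hj2 hj3
      have : j = 2 := by omega
      subst this
      exact x2_pos hg ht
  | succ q hq ih =>
    obtain ⟨u, hu, hz, h1, h2⟩ := ih
    obtain ⟨t, ht, htu, hz', hs⟩ := least_zero hg hc (by omega) hu (next_neg hg hu hz)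
    refine ⟨t, ht, hz', ?_, ?_⟩
    · intro s hs1 hs2 j hj2 hj3
      rcases Nat.lt_or_ge j (q + 1) with h | h
      · exact h1 s hs1 (hs2.trans htu) j hj2 (by omega)
      · have : j = q + 1 := by omega
        subst this
        exact hs s hs1 hs2
    · intro j hj2 hj3
      exact h1 t ht.1 htu j hj2 (by omega)

theorem rowQ : StatQ := by
  intro g hc hg q hq
  have hg' : Hyp g := hg
  obtain ⟨t, ht, hz, -, hp⟩ := zeros hg' hc q hq
  have hup : ∀ j, 2 ≤ j → j < q → X g t j ≤ 2.3 := by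
    intro j hj2 hjq
    by_contra hcon
    obtain ⟨k, rfl⟩ := Nat.exists_eq_add_of_le hjq.le
    have h := persist' hg' ht (not_le.1 hcon) k
    rw [hz] at h
    norm_num at h
  have hlow : ∀ j, 2 ≤ j → j < q → 1.25 ≤ X g t j := by
    intro j hj2 hjq
    have hpos := hp j hj2 hjq
    have hle := hup j hj2 hjq
    have hn : 0 ≤ X g t (j + 1) := by
      rcases Nat.lt_or_ge (j + 1) q with h | h
      · exact (hp (j + 1) (by omega) h).le
      · have : j + 1 = q := by omega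
        rw [this, hz]
    have hcl : clamp (X g t j) = X g t j := clamp_eq (by linarith) (by linarith)
    have hb := (bounds hg' ht (clamp_mem (X g t j))).2
    have he : X g t (j + 1) = g t (clamp (X g t j)) := rfl
    rw [← he, hcl] at hb
    by_contra hcon
    rw [not_le] at hcon
    nlinarith [ht.2]
  have h1 := x1 hg' ht
  have hall : ∀ j, 1 ≤ j → j < q → 1.25 ≤ |X g t j| ∧ |X g t j| ≤ 2.3 := by
    intro j hj1 hjq
    rcases Nat.lt_or_ge j 2 with h | h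
    · have : j = 1 := by omega
      subst this
      rw [abs_of_nonpos (by linarith [ht.2, h1.2])]
      constructor
      · linarith [ht.2, h1.2]
      · linarith [ht.1, h1.1]
    · rw [abs_of_pos (hp j h hjq)]
      exact ⟨hlow j h hjq, hup j h hjq⟩
  refine ⟨t, ht, X g t, rfl, ?_, hz, hall, ?_⟩
  · intro j hj
    show g t (clamp (X g t j)) = g t (X g t j)
    rcases Nat.eq_zero_or_pos j with rfl | hj0
    · rw [show X g t 0 = 0 from rfl, clamp_eq (by norm_num) (by norm_num)]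
    · have h := abs_le.1 (hall j hj0 hj).2
      rw [clamp_eq (by linarith [h.1]) (by linarith [h.2])]
  · rw [abs_of_nonpos (by linarith [ht.2, h1.2])]
    linarith [ht.2, h1.2]

end Pool.Agent.H17.MB
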